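import Pool.Agent.helper9.TH.Spec

namespace Pool.Agent.helper89.TH

open Pool.Agent.helper9.TH

universe u

theorem S2 (hFR : FR_stmt.{u}) (hS1 : S1_stmt.{u}) (hJa : JBa_stmt.{u}) (hJb : JBb_stmt.{u})
    (hPa : PBa_stmt.{u}) : S2_stmt.{u} := by
  intro p G _ _ P hp hI hH hPN
  have : Fact p.Prime := ⟨hp⟩
  obtain ⟨hJle, hOle, hJmap, hOmap, hJn, hOn⟩ := hJa
  obtain ⟨hJne, hOne, -⟩ := hJb
  obtain ⟨hPsub, -, -⟩ := hPa
  obtain ⟨hS1a, hS1b⟩ := hS1
  by_contra hcon
  -- a nontrivial `p`-subgroup whose normalizer has no complement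
  have hHN : ¬ HN p G := fun h => hPN (hFR p G hp h)
  set S : Set (Subgroup G) := {D | IsPGroup p D ∧ D ≠ ⊥ ∧
    ¬ PN p (Subgroup.normalizer (D : Set G))} with hS
  have hSne : S.Nonempty := by
    by_contra h
    apply hHN
    intro D hD hDne
    by_contra h2
    exact h ⟨D, hD, hDne, h2⟩
  have hSfin : S.Finite := Set.toFinite S
  obtain ⟨D, hDS, hDmax⟩ := Set.exists_max_image S
    (fun D => (Nat.card (Subgroup.normalizer (D : Set G))).factorization p) hSfin hSne
  obtain ⟨hDp, hDne, hDPN⟩ := hDS
  set N : Subgroup G := Subgroup.normalizer (D : Set G) with hN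
  have hNtop : N ≠ ⊤ := by
    intro h
    exact hcon ⟨D, Subgroup.normalizer_eq_top_iff.1 h, hDp, hDne⟩
  have hcard : Nat.card N < Nat.card G := by
    refine lt_of_le_of_ne (Subgroup.card_le_card_group _) ?_
    intro h
    exact hNtop (Subgroup.eq_top_of_card_eq _ h)
  -- a Sylow subgroup of `N` containing `D`
  have hDN : D ≤ N := Subgroup.le_normalizer
  have hD'p : IsPGroup p (D.subgroupOf N) :=
    hDp.comap_of_injective N.subtype N.subtype_injective
  obtain ⟨Q, hQ⟩ := hD'p.exists_le_sylow
  set P₀ : Subgroup G := (Q : Subgroup N).map N.subtype with hP₀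
  have hP₀N : P₀ ≤ N := by
    rw [hP₀]
    exact Subgroup.map_subtype_le _
  have hP₀sub : P₀.subgroupOf N = (Q : Subgroup N) := by
    rw [hP₀]
    exact Subgroup.comap_map_eq_self_of_injective N.subtype_injective _
  have hP₀p : IsPGroup p P₀ := Q.isPGroup'.map N.subtype
  have hDP₀ : D ≤ P₀ := by
    intro x hx
    exact ⟨⟨x, hDN hx⟩, hQ hx, rfl⟩
  have hP₀ne : P₀ ≠ ⊥ := by
    intro h
    exact hDne (eq_bot_iff.2 (h ▸ hDP₀))
  have hQidx : ¬ p ∣ (Q : Subgroup N).index := Q.not_dvd_index
  have hcardP₀ : Nat.card P₀ = p ^ (Nat.card N).factorization p := by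
    rw [← Q.card_eq_multiplicity]
    exact Nat.card_congr (Subgroup.equivMapOfInjective (Q : Subgroup N) N.subtype
      N.subtype_injective).symm.toEquiv
  by_cases hA : Syl p P₀
  · -- Case A
    have h1 : Hyp p G P₀ := hS1b p G P P₀ hp hH hA
    have h2 : Hyp p N (P₀.subgroupOf N) := hS1a p G P₀ N hp h1 hP₀N
    exact hDPN (hI N _ hcard h2)
  · -- Case B
    have hidx : p ∣ P₀.index := by
      by_contra h
      exact hA ⟨hP₀p, h⟩
    have hdvd : p ^ ((Nat.card N).factorization p + 1) ∣ Nat.card G := by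
      rw [← P₀.card_mul_index, hcardP₀, pow_succ]
      exact mul_dvd_mul_left _ hidx
    have hbig : p ^ ((Nat.card N).factorization p + 1) ∣
        Nat.card (Subgroup.normalizer (P₀ : Set G)) :=
      Sylow.prime_pow_dvd_card_normalizer hdvd hcardP₀
    have key : ∀ X : Subgroup G, IsPGroup p X → X ≠ ⊥ →
        Subgroup.normalizer (P₀ : Set G) ≤ Subgroup.normalizer (X : Set G) →
        PN p (Subgroup.normalizer (X : Set G)) := by
      intro X hXp hXne hle
      by_contra hX
      have h1 := hDmax X ⟨hXp, hXne, hX⟩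
      have h2 : p ^ ((Nat.card N).factorization p + 1) ∣
          Nat.card (Subgroup.normalizer (X : Set G)) :=
        hbig.trans (Subgroup.card_dvd_of_le hle)
      have h3 := (hp.pow_dvd_iff_le_factorization Nat.card_pos.ne').1 h2
      have h4 : (Nat.card (Subgroup.normalizer (X : Set G))).factorization p ≤
        (Nat.card N).factorization p := h1
      omega
    have hQne : (Q : Subgroup N) ≠ ⊥ := by
      intro h
      apply hP₀ne
      rw [hP₀, h, Subgroup.map_bot]
    have trans : ∀ X' : Subgroup N,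
        PN p (Subgroup.normalizer (X'.map N.subtype : Set G)) →
        PN p (Subgroup.normalizer (X' : Set N)) := by
      intro X' h
      let f : Subgroup.normalizer (X' : Set N) →*
          Subgroup.normalizer (X'.map N.subtype : Set G) :=
        (N.subtype.comp (Subgroup.subtype _)).codRestrict _ (by
          intro x
          exact Subgroup.le_normalizer_map N.subtype
            (Subgroup.mem_map_of_mem N.subtype x.2))
      have hf : Function.Injective f := by
        intro x y hxy
        have h0 : ((f x : Subgroup.normalizer (X'.map N.subtype : Set G)) : G) = (f y : G) := by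
          rw [hxy]
        have h1 : (N.subtype (x : N)) = N.subtype (y : N) := h0
        exact Subtype.ext (N.subtype_injective h1)
      exact hPsub p _ _ hp f hf h
    have hXJ : PN p (Subgroup.normalizer (JJ p P₀ : Set G)) :=
      key _ (hP₀p.to_le (hJle p G P₀)) (hJne p G P₀ hp hP₀p hP₀ne) (hJn p G P₀)
    have hXO : PN p (Subgroup.normalizer (OZ p P₀ : Set G)) :=
      key _ (hP₀p.to_le (hOle p G P₀)) (hOne p G P₀ hp hP₀p hP₀ne) (hOn p G P₀)
    have eJ : JJ p P₀ = (JJ p (Q : Subgroup N)).map N.subtype :=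
      hJmap p N G N.subtype (Q : Subgroup N) N.subtype_injective
    have eO : OZ p P₀ = (OZ p (Q : Subgroup N)).map N.subtype :=
      hOmap p N G N.subtype (Q : Subgroup N) N.subtype_injective
    rw [eJ] at hXJ
    rw [eO] at hXO
    have hHypN : Hyp p N (Q : Subgroup N) := ⟨⟨Q.isPGroup', hQidx⟩, trans _ hXJ, trans _ hXO⟩
    exact hDPN (hI N _ hcard hHypN)

end Pool.Agent.helper89.TH
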